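import Pool.Agent.W37.SG.Stm

/-! MP_9a3597_al, project SG (owner helper37): task SG-DC. -/

set_option autoImplicit false

namespace Pool.Agent.W281.SG.DC

open Pool.Agent.W37.SG

variable {p : ℕ} [Fact p.Prime]

/-- the operator `f ↦ f ∘ g` -/
def act (g : Pm p) : Module.End (ZMod p) (Fn p) where
  toFun f := fun x => f (g x)
  map_add' _ _ := rfl
  map_smul' _ _ := rfl

/-- the operator `g - 1` -/
def Dl (g : Pm p) : Module.End (ZMod p) (Fn p) := act g - 1

theorem act_apply (g : Pm p) (f : Fn p) : act g f = fun x => f (g x) := rfl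

theorem Dl_apply (g : Pm p) (f : Fn p) : Dl g f = fun x => f (g x) - f x := rfl

theorem act_eq (g : Pm p) : act g = 1 + Dl g := by
  rw [Dl]
  abel

theorem act_eq' (g : Pm p) (f : Fn p) : act g f = f + Dl g f := by
  rw [act_eq]
  rfl

theorem act_mul (g h : Pm p) : act (g * h) = act h * act g := rfl

theorem act_one : act (1 : Pm p) = 1 := rfl

theorem act_inv_act (g : Pm p) (f : Fn p) : act g (act g⁻¹ f) = f := by
  funext x
  simp [act_apply]

theorem act_act_inv (g : Pm p) (f : Fn p) : act g⁻¹ (act g f) = f := by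
  funext x
  simp [act_apply]

theorem act_pow (g : Pm p) (n : ℕ) : act (g ^ n) = act g ^ n := by
  induction n with
  | zero => rfl
  | succ n ih => rw [pow_succ' g, act_mul, ih, pow_succ]

theorem U_mono {m n : ℕ} (h : m ≤ n) : U p m ≤ U p n := by
  refine Submodule.span_mono ?_
  rintro f ⟨i, hi, rfl⟩
  exact ⟨i, by omega, rfl⟩

theorem mon_mem (i : ℕ) : mon p i ∈ U p (i + 1) :=
  Submodule.subset_span ⟨i, by omega, rfl⟩

instance U_fin (n : ℕ) : FiniteDimensional (ZMod p) (U p n) := by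
  have h : {f : Fn p | ∃ i < n, f = mon p i}.Finite := by
    have h1 : {f : Fn p | ∃ i < n, f = mon p i} = (mon p) '' (Set.Iio n) := by
      ext f
      simp only [Set.mem_setOf_eq, Set.mem_image, Set.mem_Iio]
      constructor
      · rintro ⟨i, h1, h2⟩
        exact ⟨i, h1, h2.symm⟩
      · rintro ⟨i, h1, h2⟩
        exact ⟨i, h1, h2.symm⟩
    rw [h1]
    exact (Set.finite_Iio n).image _
  exact FiniteDimensional.span_of_finite (ZMod p) h

theorem dep_iff {d : ℕ} {g : Pm p} : Dep p d g ↔ ∀ n, ∀ f ∈ U p n, Dl g f ∈ U p (n - d) :=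
  Iff.rfl

theorem lead_iff {d : ℕ} {g : Pm p} {a : ℕ → ZMod p} : Lead p d g a ↔
    ∀ i, d ≤ i → Dl g (mon p i) - a i • mon p (i - d) ∈ U p (i - d) :=
  Iff.rfl

theorem act_mem {d : ℕ} {g : Pm p} (h : Dep p d g) {n : ℕ} {f : Fn p} (hf : f ∈ U p n) :
    act g f ∈ U p n := by
  rw [act_eq']
  exact (U p n).add_mem hf (U_mono (by omega) (dep_iff.1 h n f hf))

theorem act_inv_mem {d : ℕ} {g : Pm p} (h : Dep p d g) {n : ℕ} {f : Fn p} (hf : f ∈ U p n) :
    act g⁻¹ f ∈ U p n := by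
  have hinj : Function.Injective ((act g).restrict (p := U p n) (q := U p n)
      (fun f hf => act_mem h hf)) := by
    rintro ⟨f₁, h₁⟩ ⟨f₂, h₂⟩ h₃
    have h4 : act g f₁ = act g f₂ := congrArg Subtype.val h₃
    have h5 : f₁ = f₂ := by
      rw [← act_act_inv g f₁, h4, act_act_inv]
    exact Subtype.ext h5
  obtain ⟨⟨f', hf'⟩, h1⟩ := (LinearMap.injective_iff_surjective.1 hinj) ⟨f, hf⟩
  have h2 : act g f' = f := congrArg Subtype.val h1
  rw [← h2, act_act_inv]
  exact hf'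

theorem Dl_inv (g : Pm p) (f : Fn p) : Dl g⁻¹ f = - Dl g (act g⁻¹ f) := by
  have h1 := act_eq' g (act g⁻¹ f)
  rw [act_inv_act] at h1
  have h2 := act_eq' g⁻¹ f
  have h3 : Dl g⁻¹ f = act g⁻¹ f - f := by
    rw [h2]
    abel
  rw [h3]
  nth_rewrite 2 [h1]
  abel

theorem dep_inv {d : ℕ} {g : Pm p} (h : Dep p d g) : Dep p d g⁻¹ := by
  rw [dep_iff]
  intro n f hf
  rw [Dl_inv]
  exact (U p _).neg_mem (dep_iff.1 h n _ (act_inv_mem h hf))

theorem lead_inv {d : ℕ} {g : Pm p} {a : ℕ → ZMod p} (hd : 1 ≤ d) (h : Dep p d g)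
    (hl : Lead p d g a) : Lead p d g⁻¹ (fun i => - a i) := by
  rw [lead_iff]
  intro i hi
  have h1 := lead_iff.1 hl i hi
  have h2 : Dl g (Dl g⁻¹ (mon p i)) ∈ U p (i - d) :=
    U_mono (by omega) (dep_iff.1 h _ _ (dep_iff.1 (dep_inv h) _ _ (mon_mem i)))
  have h3 : Dl g⁻¹ (mon p i) = - Dl g (mon p i) - Dl g (Dl g⁻¹ (mon p i)) := by
    nth_rewrite 1 [Dl_inv]
    rw [act_eq', map_add]
    abel
  have h4 : Dl g⁻¹ (mon p i) - (-a i) • mon p (i - d) =
      -(Dl g (mon p i) - a i • mon p (i - d)) - Dl g (Dl g⁻¹ (mon p i)) := by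
    nth_rewrite 1 [h3]
    rw [neg_smul]
    abel
  show Dl g⁻¹ (mon p i) - (-a i) • mon p (i - d) ∈ _
  rw [h4]
  exact (U p _).sub_mem ((U p _).neg_mem h1) h2

theorem Dl_mul (g h : Pm p) (f : Fn p) : Dl (g * h) f = Dl g f + Dl h f + Dl h (Dl g f) := by
  have h1 : act (g * h) f = act h (act g f) := rfl
  rw [act_eq', act_eq' g, act_eq' h, map_add] at h1
  have h2 : Dl (g * h) f = (f + Dl (g * h) f) - f := by abel
  rw [h2, h1]
  abel

theorem dep_mul {d : ℕ} {g h : Pm p} (hg : Dep p d g) (hh : Dep p d h) : Dep p d (g * h) := by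
  rw [dep_iff]
  intro n f hf
  rw [Dl_mul]
  exact (U p _).add_mem ((U p _).add_mem (dep_iff.1 hg n f hf) (dep_iff.1 hh n f hf))
    (U_mono (by omega) (dep_iff.1 hh _ _ (dep_iff.1 hg n f hf)))

theorem lead_mul {d : ℕ} {g h : Pm p} {a b : ℕ → ZMod p} (hd : 1 ≤ d) (hg : Dep p d g)
    (hh : Dep p d h) (hlg : Lead p d g a) (hlh : Lead p d h b) :
    Lead p d (g * h) (fun i => a i + b i) := by
  rw [lead_iff]
  intro i hi
  have h1 := lead_iff.1 hlg i hi
  have h2 := lead_iff.1 hlh i hi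
  have h3 : Dl h (Dl g (mon p i)) ∈ U p (i - d) :=
    U_mono (by omega) (dep_iff.1 hh _ _ (dep_iff.1 hg _ _ (mon_mem i)))
  have h4 : Dl (g * h) (mon p i) - (a i + b i) • mon p (i - d) =
      (Dl g (mon p i) - a i • mon p (i - d)) + (Dl h (mon p i) - b i • mon p (i - d)) +
        Dl h (Dl g (mon p i)) := by
    rw [Dl_mul, add_smul]
    abel
  show Dl (g * h) (mon p i) - (a i + b i) • mon p (i - d) ∈ _
  rw [h4]
  exact (U p _).add_mem ((U p _).add_mem h1 h2) h3

/-- the leading term of a product of two operators -/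
theorem comp_lead {d e : ℕ} {g h : Pm p} {a b : ℕ → ZMod p}
    (hh : Dep p e h) (hlg : Lead p d g a) (hlh : Lead p e h b) {i : ℕ} (hi : d + e ≤ i) :
    Dl h (Dl g (mon p i)) - (a i * b (i - d)) • mon p (i - (d + e)) ∈ U p (i - (d + e)) := by
  have h1 := lead_iff.1 hlg i (by omega)
  have h2 := lead_iff.1 hlh (i - d) (by omega)
  rw [Nat.sub_sub] at h2
  have h3 := dep_iff.1 hh _ _ h1
  rw [map_sub, map_smul, Nat.sub_sub] at h3
  have h4 : Dl h (Dl g (mon p i)) - (a i * b (i - d)) • mon p (i - (d + e)) =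
      (Dl h (Dl g (mon p i)) - a i • Dl h (mon p (i - d))) +
        a i • (Dl h (mon p (i - d)) - b (i - d) • mon p (i - (d + e))) := by
    rw [smul_sub, smul_smul]
    abel
  rw [h4]
  exact (U p _).add_mem h3 ((U p _).smul_mem _ h2)

theorem Dl_cm (g h : Pm p) (F : Fn p) : Dl (cm g h) F =
    Dl h (Dl g (act (h * g)⁻¹ F)) - Dl g (Dl h (act (h * g)⁻¹ F)) := by
  set f := act (h * g)⁻¹ F with hf
  have h1 : F = act (h * g) f := by rw [hf, act_inv_act]
  have h2 : act (cm g h) F = act (g * h) f := by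
    rw [h1, cm]
    funext x
    simp [act_apply]
  rw [act_eq', act_eq', Dl_mul] at h2
  nth_rewrite 1 [h1] at h2
  rw [act_eq', Dl_mul] at h2
  have h3 : Dl (cm g h) F = (f + (Dl h f + Dl g f + Dl g (Dl h f)) + Dl (cm g h) F) -
      (f + (Dl h f + Dl g f + Dl g (Dl h f))) := by abel
  rw [h3, h2]
  abel

theorem act_prod_inv_mem {d e : ℕ} {g h : Pm p} (hg : Dep p d g) (hh : Dep p e h) {n : ℕ}
    {f : Fn p} (hf : f ∈ U p n) : act (h * g)⁻¹ f ∈ U p n := by
  rw [mul_inv_rev, act_mul]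
  exact act_inv_mem hh (act_inv_mem hg hf)

theorem act_prod_inv_mon {d e : ℕ} {g h : Pm p} (hd : 1 ≤ d) (he : 1 ≤ e) (hg : Dep p d g)
    (hh : Dep p e h) (i : ℕ) : act (h * g)⁻¹ (mon p i) - mon p i ∈ U p i := by
  have h1 : act (h * g)⁻¹ (mon p i) - mon p i =
      Dl g⁻¹ (mon p i) + Dl h⁻¹ (act g⁻¹ (mon p i)) := by
    rw [mul_inv_rev, act_mul]
    have h2 : (act h⁻¹ * act g⁻¹) (mon p i) = act h⁻¹ (act g⁻¹ (mon p i)) := rfl
    rw [h2, act_eq' h⁻¹, act_eq' g⁻¹ (mon p i)]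
    abel
  rw [h1]
  exact (U p _).add_mem (U_mono (by omega) (dep_iff.1 (dep_inv hg) _ _ (mon_mem i)))
    (U_mono (by omega) (dep_iff.1 (dep_inv hh) _ _ (act_inv_mem hg (mon_mem i))))

theorem dep_cm {d e : ℕ} {g h : Pm p} (hg : Dep p d g) (hh : Dep p e h) :
    Dep p (d + e) (cm g h) := by
  rw [dep_iff]
  intro n f hf
  rw [Dl_cm]
  have h1 := act_prod_inv_mem hg hh hf
  have h2 := dep_iff.1 hh _ _ (dep_iff.1 hg _ _ h1)
  have h3 := dep_iff.1 hg _ _ (dep_iff.1 hh _ _ h1)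
  rw [Nat.sub_sub] at h2 h3
  rw [add_comm e d] at h3
  exact (U p _).sub_mem h2 h3

theorem lead_cm {d e : ℕ} {g h : Pm p} {a b : ℕ → ZMod p} (hd : 1 ≤ d) (he : 1 ≤ e)
    (hg : Dep p d g) (hh : Dep p e h) (hlg : Lead p d g a) (hlh : Lead p e h b) :
    Lead p (d + e) (cm g h) (fun i => a i * b (i - d) - b i * a (i - e)) := by
  rw [lead_iff]
  intro i hi
  set u := act (h * g)⁻¹ (mon p i) - mon p i with hu
  have hum : u ∈ U p i := act_prod_inv_mon hd he hg hh i
  have h1 := comp_lead hh hlg hlh hi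
  have h2 := comp_lead hg hlh hlg (i := i) (by omega)
  rw [add_comm e d] at h2
  have h3 := dep_iff.1 hh _ _ (dep_iff.1 hg _ _ hum)
  have h4 := dep_iff.1 hg _ _ (dep_iff.1 hh _ _ hum)
  rw [Nat.sub_sub] at h3 h4
  rw [add_comm e d] at h4
  have h5 : act (h * g)⁻¹ (mon p i) = mon p i + u := by
    rw [hu]
    abel
  have h6 : Dl (cm g h) (mon p i) - (a i * b (i - d) - b i * a (i - e)) • mon p (i - (d + e)) =
      (Dl h (Dl g (mon p i)) - (a i * b (i - d)) • mon p (i - (d + e))) -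
      (Dl g (Dl h (mon p i)) - (b i * a (i - e)) • mon p (i - (d + e))) +
      (Dl h (Dl g u) - Dl g (Dl h u)) := by
    rw [Dl_cm, h5, map_add, map_add, map_add, map_add, sub_smul]
    abel
  show Dl (cm g h) (mon p i) - (a i * b (i - d) - b i * a (i - e)) • mon p (i - (d + e)) ∈ _
  rw [h6]
  exact (U p _).add_mem ((U p _).sub_mem h1 h2) ((U p _).sub_mem h3 h4)

instance charEnd : CharP (Module.End (ZMod p) (Fn p)) p :=
  charP_of_injective_algebraMap
    (algebraMap (ZMod p) (Module.End (ZMod p) (Fn p))).injective p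

theorem Dl_pow (g : Pm p) : Dl (g ^ p) = Dl g ^ p := by
  have h1 : act (g ^ p) = 1 + Dl g ^ p := by
    rw [act_pow, act_eq, add_pow_char_of_commute p (Commute.one_left _), one_pow]
  rw [Dl, h1]
  abel

theorem pow_mem {d : ℕ} {g : Pm p} (hg : Dep p d g) (k : ℕ) : ∀ (n : ℕ), ∀ f ∈ U p n,
    (Dl g ^ k) f ∈ U p (n - k * d) := by
  induction k with
  | zero =>
    intro n f hf
    simpa using hf
  | succ k ih =>
    intro n f hf
    have h1 := dep_iff.1 hg _ _ (ih n f hf)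
    rw [Nat.sub_sub] at h1
    have h2 : (Dl g ^ (k + 1)) f = Dl g ((Dl g ^ k) f) := by
      rw [pow_succ']
      rfl
    rw [h2, add_mul, one_mul]
    exact h1

theorem pow_lead {d : ℕ} {g : Pm p} {a : ℕ → ZMod p} (hg : Dep p d g) (hl : Lead p d g a)
    (k : ℕ) : ∀ i, k * d ≤ i →
    (Dl g ^ k) (mon p i) - (∏ l ∈ Finset.range k, a (i - l * d)) • mon p (i - k * d) ∈
      U p (i - k * d) := by
  induction k with
  | zero =>
    intro i _
    simp
  | succ k ih =>
    intro i hi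
    rw [add_mul, one_mul] at hi
    have h1 := dep_iff.1 hg _ _ (ih i (by omega))
    have h2 := lead_iff.1 hl (i - k * d) (by omega)
    rw [Nat.sub_sub] at h1 h2
    rw [map_sub, map_smul] at h1
    have h3 : (Dl g ^ (k + 1)) (mon p i) = Dl g ((Dl g ^ k) (mon p i)) := by
      rw [pow_succ']
      rfl
    rw [h3, add_mul, one_mul, Finset.prod_range_succ]
    set c := ∏ l ∈ Finset.range k, a (i - l * d) with hc
    have h4 : Dl g ((Dl g ^ k) (mon p i)) - (c * a (i - k * d)) • mon p (i - (k * d + d)) =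
        (Dl g ((Dl g ^ k) (mon p i)) - c • Dl g (mon p (i - k * d))) +
        c • (Dl g (mon p (i - k * d)) - a (i - k * d) • mon p (i - (k * d + d))) := by
      rw [smul_sub, smul_smul]
      abel
    rw [h4]
    exact (U p _).add_mem h1 ((U p _).smul_mem _ h2)

theorem main : S_DC := by
  intro p _ d e g h a b hd he hg hh hlg hlh
  refine ⟨⟨dep_cm hg hh, lead_cm hd he hg hh hlg hlh⟩, ?_, ⟨dep_inv hg, lead_inv hd hg hlg⟩,
    ?_, ?_⟩
  · rintro rfl
    exact ⟨dep_mul hg hh, lead_mul hd hg hh hlg hlh⟩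
  · rw [dep_iff, Dl_pow]
    exact pow_mem hg p
  · rw [lead_iff, Dl_pow]
    exact pow_lead hg hlg p

end Pool.Agent.W281.SG.DC
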